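import Pool.Agent.V11219.LocDefs

/-!
# Local monodromy with Jordan blocks of several sizes: definitions
-/

open CategoryTheory AlgebraicGeometry

universe u

namespace Pool.Agent.U172.JT

open Pool.Agent.TH125.Gal Pool.Agent.V11219.Loc

section Alg

variable {K : Type} [Field K] {A : Type} [Ring A] [Algebra K A] {Γ : Type} [Group Γ]

/-- `g` acts unipotently on `T`. -/
def UnipotentOn (T : Submodule K A) (ρ : Γ →* (A ≃ₐ[K] A)) (g : Γ) : Prop :=
  ∃ m : ℕ, ∀ t ∈ T, (dif ρ g ^ m) t = 0

/-- The number of the Jordan blocks of size greater than `j` of a unipotent element `g` on `T`: the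
dimension of the space of the elements of `(g - 1) ^ j T` which are killed by `g - 1`. -/
noncomputable def blocksAbove (T : Submodule K A) (ρ : Γ →* (A ≃ₐ[K] A)) (g : Γ) (j : ℕ) : ℕ :=
  Module.finrank K (LinearMap.ker (dif ρ g) ⊓ T.map (dif ρ g ^ j) : Submodule K A)

/-- The number of the Jordan blocks of size `j > 0` of `g` on `T`. -/
noncomputable def blocks (T : Submodule K A) (ρ : Γ →* (A ≃ₐ[K] A)) (g : Γ) (j : ℕ) : ℕ :=
  blocksAbove T ρ g (j - 1) - blocksAbove T ρ g j

/-- There are Jordan blocks of size one, all the other Jordan blocks have even sizes, and there is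
exactly one Jordan block of some even size. -/
def MixedBlocks (T : Submodule K A) (ρ : Γ →* (A ≃ₐ[K] A)) (g : Γ) : Prop :=
  blocks T ρ g 1 ≠ 0 ∧ (∀ j, Odd j → 3 ≤ j → blocks T ρ g j = 0) ∧
    ∃ j, Even j ∧ blocks T ρ g j = 1

/-- The eigenvalues of `F` on `T` are `a, a c, a c ^ 2, ...`, with (algebraic) multiplicities, for
some numbers `a` and `c`. -/
def Geometric (T : Submodule K A) (ρ : Γ →* (A ≃ₐ[K] A)) (F : Γ) : Prop :=
  ∃ a c : K, ∀ b : K,
    Module.finrank K (T ⊓ Module.End.maxGenEigenspace (ρ F).toLinearMap b : Submodule K A) =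
      {i : ℕ | i < Module.finrank K T ∧ a * c ^ i = b}.ncard

/-- There is a single Jordan block, and `T` has dimension two or the eigenvalues of some element of
the group on `T` are not a geometric progression. -/
def OneBlock (T : Submodule K A) (ρ : Γ →* (A ≃ₐ[K] A)) (g : Γ) : Prop :=
  blocksAbove T ρ g 0 = 1 ∧ (Module.finrank K T = 2 ∨ ∃ F : Γ, ¬ Geometric T ρ F)

/-- `a` is an eigenvalue of `F` on `T`. -/
def EigenvalueOn (T : Submodule K A) (ρ : Γ →* (A ≃ₐ[K] A)) (F : Γ) (a : K) : Prop :=
  ∃ t ∈ T, t ≠ 0 ∧ ρ F t = a • t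

/-- The eigenvalues of `F` on `T` are simple; for every `q ≠ 1` there are at most two eigenvalues `a`
such that `q a` is an eigenvalue, and none such that `q a` and `q ^ 2 a` are eigenvalues. -/
def FewQuotients (T : Submodule K A) (ρ : Γ →* (A ≃ₐ[K] A)) (F : Γ) : Prop :=
  (∀ a, Module.finrank K (T ⊓ Module.End.maxGenEigenspace (ρ F).toLinearMap a : Submodule K A) ≤ 1) ∧
  (∀ q : K, q ≠ 1 → {a : K | EigenvalueOn T ρ F a ∧ EigenvalueOn T ρ F (q * a)}.ncard ≤ 2) ∧
  ∀ q : K, q ≠ 1 → ∀ a, EigenvalueOn T ρ F a → EigenvalueOn T ρ F (q * a) →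
    ¬ EigenvalueOn T ρ F (q * (q * a))

/-- Some element `g` of `M` is unipotent on `T`, and it has mixed Jordan blocks; or a single Jordan
block (see `OneBlock`); or it acts nontrivially, and some element of the group has few quotients of
eigenvalues on `T`. -/
def JordanCondition (T : Submodule K A) (ρ : Γ →* (A ≃ₐ[K] A)) (M : Set Γ) : Prop :=
  ∃ g ∈ M, UnipotentOn T ρ g ∧
    (MixedBlocks T ρ g ∨ OneBlock T ρ g ∨ ((∃ t ∈ T, ρ g t ≠ t) ∧ ∃ F : Γ, FewQuotients T ρ F))

end Alg

open Pool.Agent.H914 Pool.Agent.H914.VarClass Pool.Agent.H914.VarClass.Obj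
  Pool.Agent.H914.WeilCohomology Pool.Agent.H281R3.HT

variable {k : Type u} [Field k] {𝒱 : VarClass k} {ops : CycleOps 𝒱}
  {W : WeilCohomology.{u, 0} ops} {Γ : Type} [Group Γ] {ι : Type}

/-- The local condition for the transcendental cohomology of `X i`, for elements `g` with `χ g = 1`
which act trivially on the cohomology of `Z` and of the other `X j`; or the local condition
`LocalCondition` of the starting library (square-zero elements, or elements of finite order). -/
def Condition (χ : Γ →* W.Kˣ) (X : ι → GVar W Γ) (Z : GVar W Γ) (i : ι) : Prop :=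
  JordanCondition (transcendental W (X i).X) (X i).act {g | χ g = 1 ∧ g ∈ trivialOn X Z i} ∨
    LocalCondition χ (transcendental W (X i).X) (X i).act (trivialOn X Z i) (eigenvaluesIn X Z i)

/-- The group acts on the cohomology of the members of the class `G` like a Galois group, and `G`
is closed under products. The variety `Z` and the odd-dimensional varieties `X i` are members of `G`;
the divisors `D i` on `X i` satisfy the hard Lefschetz theorem and the standard conjectures of
Lefschetz and of Hodge type; the transcendental cohomology of `X i` is in the middle degree and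
irreducible under all subgroups of finite index; and every `X i` satisfies `Condition`. -/
structure JordanSystem (χ : Γ →* W.Kˣ) (G : Set (GVar W Γ)) (X : ι → GVar W Γ)
    (D : ∀ i, (X i).X.Cycles) (Z : GVar W Γ) : Prop where
  galois : ∀ A ∈ G, IsGaloisVar χ A
  prod : ClosedUnderProducts G
  mem : ∀ i, X i ∈ G
  mem_base : Z ∈ G
  odd : ∀ i, Odd (X i).X.dim
  transIrred : ∀ i, TransIrred (X i) (D i)
  cond : ∀ i, Condition χ X Z i

/-- The group `Γ` acts on the cohomology of the odd-dimensional varieties `X i` like a Galois group;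
numerical and homological equivalence coincide for them; their transcendental cohomology is in the
middle degree and irreducible under all subgroups of finite index; and every `X i` satisfies
`Condition`. -/
structure JordanVars (χ : Γ →* W.Kˣ) (X : ι → GVar W Γ) (Z : GVar W Γ) : Prop where
  odd : ∀ i, Odd (X i).X.dim
  galois : ∀ i, IsGaloisVar χ (X i)
  homEqNum : ∀ i, HomEqNum W (X i).X
  middle : ∀ i, transcendental W (X i).X ≤ W.gr (X i).X (X i).X.dim
  irreducible : ∀ i, IrredAct (X i).act (transcendental W (X i).X)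
  cond : ∀ i, Condition χ X Z i

end Pool.Agent.U172.JT
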