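import Mathlib

/-!
# Spaces of operators which are stable under the conjugation by an operator with few coincidences
between the quotients of its eigenvalues
-/

set_option autoImplicit false
set_option linter.unusedSectionVars false

namespace Pool.Agent.U172.JT

open Module

variable {K : Type*} [Field K] {T : Type*} [AddCommGroup T] [Module K T]

/-- the conjugation by `F`, with inverse `F'` -/
def cj (F F' : End K T) : End K (End K T) := LinearMap.mulLeft K F * LinearMap.mulRight K F'

theorem cj_apply (F F' y : End K T) : cj F F' y = F * y * F' := by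
  change F * (y * F') = _
  rw [mul_assoc]

theorem gen_step {F F' : End K T} (hFF : F' * F = 1) (x : End K T) (v : T) (μ a : K) :
    (F - (μ * a) • 1 : End K T) (x v) = ((cj F F' - μ • 1) x) (F v) + (μ • x) ((F - a • 1) v) := by
  have h1 : F (x v) = (cj F F' x) (F v) := by
    rw [cj_apply, Module.End.mul_apply, Module.End.mul_apply]
    have h2 := LinearMap.congr_fun hFF v
    rw [Module.End.mul_apply, Module.End.one_apply] at h2
    rw [h2]
  simp only [LinearMap.sub_apply, LinearMap.smul_apply, Module.End.one_apply, h1, map_sub,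
    map_smul]
  module

theorem gen_mul {F F' : End K T} (hFF : F' * F = 1) {μ a : K} {x : End K T} {v : T}
    (hx : x ∈ Module.End.maxGenEigenspace (cj F F') μ)
    (hv : v ∈ Module.End.maxGenEigenspace F a) :
    x v ∈ Module.End.maxGenEigenspace F (μ * a) := by
  obtain ⟨n, hn⟩ := (Module.End.mem_maxGenEigenspace _ _ _).1 hx
  obtain ⟨m, hm⟩ := (Module.End.mem_maxGenEigenspace _ _ _).1 hv
  suffices key : ∀ (s n m : ℕ) (x : End K T) (v : T), n + m ≤ s →
      ((cj F F' - μ • 1) ^ n) x = 0 → ((F - a • 1) ^ m) v = 0 →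
      ((F - (μ * a) • 1 : End K T) ^ s) (x v) = 0 from
    (Module.End.mem_maxGenEigenspace _ _ _).2 ⟨n + m, key (n + m) n m x v le_rfl hn hm⟩
  intro s
  induction s with
  | zero =>
    intro n m x v hs hx hv
    have h0 : n = 0 := by omega
    rw [h0, pow_zero, Module.End.one_apply] at hx
    rw [hx, LinearMap.zero_apply, map_zero]
  | succ s ih =>
    intro n m x v hs hx hv
    rw [pow_succ, Module.End.mul_apply, gen_step hFF, map_add]
    have h1 : ((F - (μ * a) • 1 : End K T) ^ s) (((cj F F' - μ • 1) x) (F v)) = 0 := by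
      cases n with
      | zero =>
        rw [pow_zero, Module.End.one_apply] at hx
        rw [hx, map_zero, LinearMap.zero_apply, map_zero]
      | succ n =>
        refine ih n m _ _ (by omega) ?_ ?_
        · rw [← Module.End.mul_apply, ← pow_succ]
          exact hx
        · have h2 : (F - a • 1 : End K T) ^ m * F = F * (F - a • 1 : End K T) ^ m := by
            have h3 : Commute (F - a • 1 : End K T) F :=
              (Commute.refl F).sub_left ((Commute.one_left F).smul_left a)
            exact (h3.pow_left m).eq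
          rw [← Module.End.mul_apply, h2, Module.End.mul_apply, hv, map_zero]
    have h2 : ((F - (μ * a) • 1 : End K T) ^ s) ((μ • x) ((F - a • 1) v)) = 0 := by
      cases m with
      | zero =>
        rw [pow_zero, Module.End.one_apply] at hv
        rw [hv, map_zero, map_zero, map_zero]
      | succ m =>
        refine ih n m _ _ (by omega) ?_ ?_
        · rw [map_smul, hx, smul_zero]
        · rw [← Module.End.mul_apply, ← pow_succ]
          exact hv
    rw [h1, h2, add_zero]

/-- `a` is an eigenvalue of `F` -/
def Ev (F : End K T) (a : K) : Prop := ∃ v, v ≠ 0 ∧ F v = a • v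

theorem ev_of {F : End K T} {a : K} {v : T} (hv : v ∈ Module.End.maxGenEigenspace F a)
    (hv0 : v ≠ 0) : Ev F a := by
  classical
  have hex := (Module.End.mem_maxGenEigenspace _ _ _).1 hv
  have h1 := Nat.find_spec hex
  have h2 : Nat.find hex ≠ 0 := by
    intro h
    rw [h, pow_zero, Module.End.one_apply] at h1
    exact hv0 h1
  obtain ⟨n, hn⟩ := Nat.exists_eq_succ_of_ne_zero h2
  have h3 := Nat.find_min hex (m := n) (by omega)
  refine ⟨_, h3, ?_⟩
  rw [hn, Nat.succ_eq_add_one, pow_succ', Module.End.mul_apply, LinearMap.sub_apply,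
    LinearMap.smul_apply, Module.End.one_apply, sub_eq_zero] at h1
  exact h1

/-- The eigenvalues of `F` are simple, and for `q ≠ 1` there are at most two eigenvalues `a` such that
`q a` is an eigenvalue, and none such that `q a` and `q ^ 2 a` are eigenvalues. -/
structure Few (F : End K T) : Prop where
  simple : ∀ a, finrank K (Module.End.maxGenEigenspace F a) ≤ 1
  two : ∀ q : K, q ≠ 1 → {a : K | Ev F a ∧ Ev F (q * a)}.ncard ≤ 2
  three : ∀ q : K, q ≠ 1 → ∀ a, Ev F a → Ev F (q * a) → ¬ Ev F (q * (q * a))

variable [FiniteDimensional K T]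

theorem ev_finite (F : End K T) : {a : K | Ev F a}.Finite := by
  refine (Module.End.finite_hasEigenvalue F).subset ?_
  rintro a ⟨v, hv, h⟩
  exact Module.End.hasEigenvalue_of_hasEigenvector (x := v)
    ⟨Module.End.mem_eigenspace_iff.2 h, hv⟩

/-- A set with at most two elements. -/
theorem subset_pair {S : Set K} (hS : S.Finite) (h : S.ncard ≤ 2) : ∃ a b : K, S ⊆ {a, b} := by
  have h1 : S.ncard = 0 ∨ S.ncard = 1 ∨ S.ncard = 2 := by omega
  rcases h1 with h1 | h1 | h1
  · exact ⟨0, 0, by rw [(Set.ncard_eq_zero hS).1 h1]; exact Set.empty_subset _⟩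
  · obtain ⟨a, rfl⟩ := Set.ncard_eq_one.1 h1
    exact ⟨a, a, by simp⟩
  · obtain ⟨a, b, -, rfl⟩ := Set.ncard_eq_two.1 h1
    exact ⟨a, b, le_rfl⟩

variable [IsAlgClosed K]

/-- **An element of small rank.** -/
theorem exists_rank_two {F F' : End K T} (hFF : F' * F = 1) (hF : Few F)
    {L : Submodule K (End K T)} (hL : ∀ X ∈ L, F * X * F' ∈ L) {e : End K T} (he : e ∈ L)
    (he0 : e ≠ 0) (hnil : IsNilpotent e) :
    ∃ x ∈ L, x * x = 0 ∧ x ≠ 0 ∧ finrank K ((⊤ : Submodule K T).map x) ≤ 2 := by
  have htop : ⨆ a, Module.End.maxGenEigenspace F a = ⊤ := Module.End.iSup_maxGenEigenspace_eq_top F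
  have hdec : L = ⨆ μ : K, L ⊓ Module.End.maxGenEigenspace (cj F F') μ :=
    Submodule.eq_iSup_inf_genEigenspace (f := cj F F') (p := L) ⊤
      (fun x hx => by rw [cj_apply]; exact hL x hx)
      (Module.End.iSup_maxGenEigenspace_eq_top (cj F F'))
  -- a component
  obtain ⟨μ, hμ, x, hxL, hxμ, hx0⟩ : ∃ μ : K, μ ≠ 1 ∧ ∃ x ∈ L,
      x ∈ Module.End.maxGenEigenspace (cj F F') μ ∧ x ≠ 0 := by
    by_contra hcon
    push Not at hcon
    have hle : L ≤ Module.End.maxGenEigenspace (cj F F') 1 := by
      rw [hdec]
      refine iSup_le fun μ y hy => ?_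
      by_cases hμ : μ = 1
      · rw [hμ] at hy
        exact hy.2
      · rw [hcon μ hμ y hy.1 hy.2]
        exact Submodule.zero_mem _
    apply he0
    have h1 : (⨆ a, Module.End.maxGenEigenspace F a) ≤ LinearMap.ker e := by
      refine iSup_le fun a v hv => ?_
      rw [LinearMap.mem_ker]
      by_contra hev
      have h2 : ∀ w ∈ Module.End.maxGenEigenspace F a, e w ∈ Module.End.maxGenEigenspace F a := by
        intro w hw
        have h3 := gen_mul hFF (hle he) hw
        rwa [one_mul] at h3
      have hv0 : v ≠ 0 := fun h => hev (by rw [h, map_zero])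
      have h4 : finrank K (Module.End.maxGenEigenspace F a) = 1 := by
        refine le_antisymm (hF.simple a) ?_
        rw [Submodule.one_le_finrank_iff, Submodule.ne_bot_iff]
        exact ⟨v, hv, hv0⟩
      obtain ⟨c, hc⟩ := (finrank_eq_one_iff_of_nonzero' (⟨v, hv⟩ :
        Module.End.maxGenEigenspace F a) (fun h => hv0 (congrArg Subtype.val h))).1 h4
          ⟨e v, h2 v hv⟩
      have hc' : e v = c • v := (congrArg Subtype.val hc).symm
      have hpow : ∀ n : ℕ, (e ^ n) v = c ^ n • v := by
        intro n
        induction n with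
        | zero => simp
        | succ n ih => rw [pow_succ', Module.End.mul_apply, ih, map_smul, hc', smul_smul, pow_succ]
      obtain ⟨n, hn⟩ := hnil
      have h5 := hpow n
      rw [hn, LinearMap.zero_apply] at h5
      rcases smul_eq_zero.1 h5.symm with h6 | h6
      · apply hev
        rw [hc', eq_zero_of_pow_eq_zero h6, zero_smul]
      · exact hv0 h6
    rw [htop, top_le_iff, LinearMap.ker_eq_top] at h1
    exact h1
  refine ⟨x, hxL, ?_, hx0, ?_⟩
  · have h1 : (⨆ a, Module.End.maxGenEigenspace F a) ≤ LinearMap.ker (x * x) := by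
      refine iSup_le fun a v hv => ?_
      rw [LinearMap.mem_ker, Module.End.mul_apply]
      by_contra hxx
      have h2 := gen_mul hFF hxμ hv
      have h3 := gen_mul hFF hxμ h2
      have hxv : x v ≠ 0 := fun h => hxx (by rw [h, map_zero])
      have hv0 : v ≠ 0 := fun h => hxv (by rw [h, map_zero])
      exact hF.three μ hμ a (ev_of hv hv0) (ev_of h2 hxv) (ev_of h3 hxx)
    rw [htop, top_le_iff, LinearMap.ker_eq_top] at h1
    exact h1
  · obtain ⟨a, b, hab⟩ := subset_pair ((ev_finite F).subset fun a (ha : Ev F a ∧ Ev F (μ * a)) =>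
      ha.1) (hF.two μ hμ)
    have hle : (⊤ : Submodule K T).map x ≤ (Module.End.maxGenEigenspace F a).map x ⊔
        (Module.End.maxGenEigenspace F b).map x := by
      rw [← htop, Submodule.map_iSup]
      refine iSup_le fun c => ?_
      by_cases hc : Ev F c ∧ Ev F (μ * c)
      · rcases hab hc with rfl | h
        · exact le_sup_left
        · rw [Set.mem_singleton_iff] at h
          rw [h]
          exact le_sup_right
      · have h0 : (Module.End.maxGenEigenspace F c).map x = ⊥ := by
          rw [eq_bot_iff]
          rintro _ ⟨v, hv, rfl⟩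
          rw [Submodule.mem_bot]
          by_contra hxv
          have hv0 : v ≠ 0 := fun h => hxv (by rw [h, map_zero])
          exact hc ⟨ev_of hv hv0, ev_of (gen_mul hFF hxμ hv) hxv⟩
        rw [h0]
        exact bot_le
    refine (Submodule.finrank_mono hle).trans ((Submodule.finrank_add_le_finrank_add_finrank _ _).trans ?_)
    have h1 : ∀ c, finrank K ((Module.End.maxGenEigenspace F c).map x) ≤ 1 := fun c =>
      (Submodule.finrank_map_le _ _).trans (hF.simple c)
    exact Nat.add_le_add (h1 a) (h1 b)

end Pool.Agent.U172.JT
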