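import Mathlib
import Pool.Agent.Y126.JB.Core2
import Pool.Agent.Y126.MU.Weil
import Pool.Agent.Y126.MU.Char
import Pool.Agent.Y126.MU.Pow

/-!
# Lie algebras which contain a nilpotent element with a single Jordan block
-/

set_option autoImplicit false
set_option linter.unusedSectionVars false

namespace Pool.Agent.U172.JT

open Module Finset Pool.Agent.W522.U Pool.Agent.TH118.CR Pool.Agent.Y126.JB Pool.Agent.Y126.MU
open Pool.Agent.H204R3.SP

section triple

variable {K : Type*} [Field K] [CharZero K] {T : Type*} [AddCommGroup T] [Module K T]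
  [FiniteDimensional K T] {e f h : End K T}

/-- A triple with a single Jordan block is in the standard form. -/
theorem prin_of (hef : h = ad K e f) (hhe : ad K h e = (2 : K) • e)
    (hhf : ad K h f = (-2 : K) • f) (hnil : IsNilpotent e) {D : ℕ}
    (hdim : finrank K T = D + 1) (htop : e ^ D ≠ 0) :
    ∃ w : ℕ → T, Prin e h f D w := by
  have h0 : e ^ (D + 1) = 0 := pow_top hnil hdim
  obtain ⟨v, hv⟩ : ∃ v, (e ^ D) v ≠ 0 := by
    by_contra hcon
    push Not at hcon
    exact htop (LinearMap.ext hcon)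
  -- the highest vector
  obtain ⟨x, hx⟩ : ∃ x, x = (e ^ D) v := ⟨_, rfl⟩
  have hx0 : x ≠ 0 := by rw [hx]; exact hv
  have hex : e x = 0 := by
    rw [hx, ← Module.End.mul_apply, ← pow_succ', h0, LinearMap.zero_apply]
  have hhx : h x = (D : K) • x := by
    have h1 := Kj_step hef hhe (mem_Kj.2 ⟨hex, v, hx.symm⟩)
    obtain ⟨-, u, hu⟩ := mem_Kj.1 h1
    rw [h0, LinearMap.zero_apply] at hu
    exact (sub_eq_zero.1 hu.symm)
  have hef' : ∀ y : T, e (f y) = f (e y) + h y := by
    intro y
    rw [hef, ad_apply, LinearMap.sub_apply, Module.End.mul_apply, Module.End.mul_apply]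
    abel
  have hhf' : ad K (-h) f = (2 : K) • f := by
    rw [ad_apply] at hhf ⊢
    have e1 : -h * f - f * -h = -(h * f - f * h) := by noncomm_ring
    rw [e1, hhf]
    module
  have hfx : ∀ i : ℕ, h ((f ^ i) x) = ((D : K) - 2 * i) • (f ^ i) x := by
    intro i
    have h1 := h_pow_apply (e := f) (h := -h) hhf' (v := x) (a := -(D : K)) (by
      rw [LinearMap.neg_apply, hhx, neg_smul]) i
    rw [LinearMap.neg_apply] at h1
    rw [← neg_neg (h ((f ^ i) x)), h1, ← neg_smul]
    congr 1
    ring
  have hefx : ∀ i : ℕ, e ((f ^ (i + 1)) x) = (((i : K) + 1) * ((D : K) - i)) • (f ^ i) x := by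
    intro i
    induction i with
    | zero =>
      rw [zero_add, pow_one, hef', hex, map_zero, zero_add, hhx, pow_zero, Module.End.one_apply]
      congr 1
      push_cast
      ring
    | succ i ih =>
      have e1 : (f ^ (i + 1 + 1)) x = f ((f ^ (i + 1)) x) := by
        rw [pow_succ' f (i + 1), Module.End.mul_apply]
      have e2 : f ((f ^ i) x) = (f ^ (i + 1)) x := by
        rw [pow_succ' f i, Module.End.mul_apply]
      rw [e1, hef', ih, map_smul, e2, hfx, ← add_smul]
      congr 1
      push_cast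
      ring
  have hne : ∀ i : ℕ, i ≤ D → (f ^ i) x ≠ 0 := by
    intro i
    induction i with
    | zero => intro _; rw [pow_zero]; exact hx0
    | succ i ih =>
      intro hi h1
      have h2 := hefx i
      rw [h1, map_zero] at h2
      rcases smul_eq_zero.1 h2.symm with h3 | h3
      · rcases mul_eq_zero.1 h3 with h4 | h4
        · exact Nat.cast_ne_zero.2 (Nat.succ_ne_zero i) (by push_cast; exact h4)
        · have h5 : (D : K) = (i : K) := sub_eq_zero.1 h4
          have h6 : D = i := by exact_mod_cast h5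
          omega
      · exact ih (by omega) h3
  -- the lowest vector
  obtain ⟨u, hu⟩ : ∃ u, u = (f ^ D) x := ⟨_, rfl⟩
  have hhu : h u = (-(D : K)) • u := by
    rw [hu, hfx]
    congr 1
    ring
  have hfu : f u = 0 := by
    by_contra hcon
    have h1 : f u = (f ^ (D + 1)) x := by rw [hu, pow_succ' f D, Module.End.mul_apply]
    have h2 := hefx D
    rw [sub_self, mul_zero, zero_smul] at h2
    have h3 := hfx (D + 1)
    rw [← h1] at h2 h3
    obtain ⟨j, hj⟩ := no_neg hef hhe hnil hcon h2 h3
    have h4 : ((j + D + 2 : ℕ) : K) = 0 := by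
      push_cast at hj ⊢
      linear_combination -hj
    have h5 : j + D + 2 = 0 := by exact_mod_cast h4
    omega
  have hchain : ∀ i : ℕ, i ≤ D → ∃ c : K, c ≠ 0 ∧ (e ^ i) u = c • (f ^ (D - i)) x := by
    intro i
    induction i with
    | zero =>
      intro _
      exact ⟨1, one_ne_zero, by rw [pow_zero, Module.End.one_apply, one_smul, hu, Nat.sub_zero]⟩
    | succ i ih =>
      intro hi
      obtain ⟨c, hc, h1⟩ := ih (by omega)
      obtain ⟨j, hj⟩ : ∃ j, D - i = j + 1 := ⟨D - i - 1, by omega⟩
      have hj' : D - (i + 1) = j := by omega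
      refine ⟨c * (((j : K) + 1) * ((D : K) - j)), ?_, ?_⟩
      · refine mul_ne_zero hc (mul_ne_zero ?_ ?_)
        · have : ((j + 1 : ℕ) : K) ≠ 0 := Nat.cast_ne_zero.2 (Nat.succ_ne_zero j)
          push_cast at this
          exact this
        · rw [sub_ne_zero]
          intro h2
          have h3 : D = j := by exact_mod_cast h2
          omega
      · rw [pow_succ' e i, Module.End.mul_apply, h1, map_smul, hj, hefx, smul_smul, hj']
  have hDu : (e ^ D) u ≠ 0 := by
    obtain ⟨c, hc, h1⟩ := hchain D le_rfl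
    rw [h1]
    exact smul_ne_zero hc (hne _ (by omega))
  obtain ⟨h', f', hp⟩ := exists_prin hnil hdim hDu
  have hhw : ∀ i : ℕ, h ((e ^ i) u) = (2 * (i : K) - D) • (e ^ i) u := by
    intro i
    rw [h_pow_apply hhe hhu i]
    congr 1
    ring
  have hfe' : ∀ y : T, f (e y) = e (f y) - h y := by
    intro y
    rw [hef']
    abel
  have hfw : ∀ i : ℕ, f ((e ^ (i + 1)) u) = (((i : K) + 1) * ((D : K) - i)) • (e ^ i) u := by
    intro i
    induction i with
    | zero =>
      rw [zero_add, pow_one, hfe', hfu, map_zero, zero_sub, hhu, pow_zero, Module.End.one_apply,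
        ← neg_smul]
      congr 1
      push_cast
      ring
    | succ i ih =>
      have e1 : (e ^ (i + 1 + 1)) u = e ((e ^ (i + 1)) u) := by
        rw [pow_succ' e (i + 1), Module.End.mul_apply]
      have e2 : e ((e ^ i) u) = (e ^ (i + 1)) u := by
        rw [pow_succ' e i, Module.End.mul_apply]
      rw [e1, hfe', ih, map_smul, e2, hhw, ← sub_smul]
      congr 1
      push_cast
      ring
  have eh : h' = h := by
    refine hp.ext fun i _ => ?_
    rw [hp.h_w]
    exact (hhw i).symm
  have ef : f' = f := by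
    refine hp.ext fun i _ => ?_
    cases i with
    | zero =>
      rw [hp.f_zero]
      exact (hfu.symm : (0 : T) = f u)
    | succ i =>
      rw [hp.f_w]
      exact (hfw i).symm
  subst eh
  subst ef
  exact ⟨_, hp⟩

end triple

variable {K : Type} [Field K] [CharZero K] [IsAlgClosed K] {T : Type} [AddCommGroup T]
  [Module K T] [FiniteDimensional K T] {Γ : Type} [Group Γ] {R : Representation K Γ T}
  {L : Submodule K (End K T)} {ω : T →ₗ[K] T →ₗ[K] K} {χ : Γ →* K}

/-- **A nilpotent element with a single Jordan block generates the symplectic Lie algebra, together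
with its conjugates, if the eigenvalues of some element of the group are not a geometric
progression.** -/
theorem full_of_single (halt : ∀ v, ω v v = 0) (hnd : ∀ u, (∀ v, ω u v = 0) → u = 0)
    (hconj : ∀ g : Γ, ∀ Y ∈ L, R g * Y * R g⁻¹ ∈ L)
    (hbr : ∀ Y ∈ L, ∀ Z ∈ L, Y * Z - Z * Y ∈ L)
    (hsp : ∀ Y ∈ L, ∀ u w, ω (Y u) w + ω u (Y w) = 0)
    (hX : SI R (⊤ : Submodule K T)) {e : End K T} (he : e ∈ L) (hnil : IsNilpotent e) {D : ℕ}
    (hD : 0 < D) (hdim : finrank K T = D + 1) (htop : e ^ D ≠ 0)
    (hF : D = 1 ∨ ∃ g : Γ, ∀ a c : K, LinearMap.charpoly (R g) ≠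
      ∏ i ∈ range (D + 1), (Polynomial.X - Polynomial.C (a * c ^ i))) :
    ∀ u v, SS ω u v ∈ L := by
  intro u v
  obtain ⟨f₁, hf₁, hf2⟩ := jm hbr (fun y hy h => trace_nondeg hconj hbr hX hnd hsp hy h) he hnil
  obtain ⟨h, hh₁⟩ : ∃ h, h = ad K e f₁ := ⟨_, rfl⟩
  have hhe : ad K h e = (2 : K) • e := by
    have h1 : ad K h e = -ad K e h := by rw [ad_apply, ad_apply]; abel
    rw [h1, hh₁, hf2, neg_smul, neg_neg]
  obtain ⟨f, hf, hh, hhf⟩ := exists_f hh₁ hhe hbr he hf₁ hnil
  have hhL : h ∈ L := by rw [hh]; exact hbr e he f hf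
  obtain ⟨w, hp⟩ := prin_of hh hhe hhf hnil hdim htop
  by_cases hne : L ≤ Submodule.span K {e, h, f}
  · rcases hF with h1 | ⟨g, hg⟩
    · refine hp.full_of_top (hsp e he) (hsp h hhL) (hsp f hf) hnd halt hbr hf ?_ hsp u v
      rw [h1, pow_one]
      exact he
    · exfalso
      have hle : Submodule.span K {e, h, f} ≤ L := by
        rw [Submodule.span_le]
        rintro y (rfl | rfl | rfl)
        · exact he
        · exact hhL
        · exact hf
      obtain ⟨x, y, c, v', h2, h3, h4⟩ := hp.exists_nilp hD (g := R g) (g' := R g⁻¹) (by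
        rw [← map_mul, inv_mul_cancel, map_one]) fun X hX' => hne (hconj g X (hle hX'))
      obtain ⟨a, ha⟩ := charpoly_geom h2 h3 hdim h4
      exact hg a c ha
  · obtain ⟨k, h2k, hk, hkL⟩ := hp.exists_pow (hsp e he) (hsp h hhL) hnd hbr hsp hD he hhL hne
    exact hp.full_of_top (hsp e he) (hsp h hhL) (hsp f hf) hnd halt hbr hf
      (hp.top_of_pow (hsp e he) (hsp h hhL) hnd halt hbr hsp hf h2k hk hkL) hsp u v

end Pool.Agent.U172.JT
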