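import Mathlib
import Pool.Agent.U172.JT.Defs
import Pool.Agent.U172.JT.Single
import Pool.Agent.U172.JT.Ratios
import Pool.Agent.Y126.JB.Log
import Pool.Agent.V11219.QuadFamily

/-!
# Unipotent elements with Jordan blocks of several sizes: the whole symplectic Lie algebra
-/

set_option autoImplicit false
set_option linter.unusedSectionVars false

open CategoryTheory AlgebraicGeometry Finset

universe u

namespace Pool.Agent.U172.JT

open Module Pool.Agent.TH125.Gal Pool.Agent.TH118.SG Pool.Agent.Y126.JB Pool.Agent.V11219.Loc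

section lin

variable {K : Type*} [Field K] [CharZero K] {T : Type*} [AddCommGroup T] [Module K T]
  [FiniteDimensional K T]

theorem Kj_mul {N V : End K T} (hV : IsUnit V) (hc : Commute N V) (j : ℕ) :
    Kj (N * V) j = Kj N j := by
  have hVj : IsUnit (V ^ j) := hV.pow j
  have hcj : (N * V) ^ j = N ^ j * V ^ j := hc.mul_pow j
  obtain ⟨U, hU⟩ := hV
  obtain ⟨U', hU'⟩ := hVj
  have hinj : ∀ x, V x = 0 → x = 0 := by
    intro x hx
    have h1 : ((U⁻¹ : (End K T)ˣ) : End K T) * V = 1 := by rw [← hU, Units.inv_mul]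
    have h2 := LinearMap.congr_fun h1 x
    rw [Module.End.mul_apply, hx, map_zero] at h2
    exact h2.symm
  ext x
  rw [mem_Kj, mem_Kj, hcj]
  constructor
  · rintro ⟨h1, u, hu⟩
    refine ⟨?_, (V ^ j) u, by rw [← Module.End.mul_apply]; exact hu⟩
    rw [hc.eq, Module.End.mul_apply] at h1
    exact hinj _ h1
  · rintro ⟨h1, u, hu⟩
    refine ⟨?_, ((U'⁻¹ : (End K T)ˣ) : End K T) u, ?_⟩
    · rw [hc.eq, Module.End.mul_apply, h1, map_zero]
    · have h3 : V ^ j * ((U'⁻¹ : (End K T)ˣ) : End K T) = 1 := by rw [← hU', Units.mul_inv]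
      have h4 := LinearMap.congr_fun h3 u
      rw [Module.End.mul_apply] at h4 ⊢
      rw [h4]
      exact hu

theorem mult_geom {K : Type*} [Field K] (f : ℕ → K) (m : ℕ) (b : K) :
    (∏ i ∈ range m, (Polynomial.X - Polynomial.C (f i))).rootMultiplicity b =
      {i : ℕ | i < m ∧ f i = b}.ncard := by
  classical
  have h1 : (∏ i ∈ range m, (Polynomial.X - Polynomial.C (f i)) : Polynomial K) =
      (((Multiset.range m).map f).map fun a => Polynomial.X - Polynomial.C a).prod := by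
    rw [Multiset.map_map]
    rfl
  rw [← Polynomial.count_roots, h1, Polynomial.roots_multiset_prod_X_sub_C, Multiset.count_map]
  have h2 : {i : ℕ | i < m ∧ f i = b} =
      (((range m).filter fun i => b = f i : Finset ℕ) : Set ℕ) := by
    ext i
    simp [eq_comm]
  rw [h2, Set.ncard_coe_finset]
  rfl

theorem Kj_antitone {N : End K T} {i j : ℕ} (h : i ≤ j) : Kj N j ≤ Kj N i := by
  intro x hx
  obtain ⟨h1, u, rfl⟩ := mem_Kj.1 hx
  obtain ⟨r, rfl⟩ := Nat.exists_eq_add_of_le h
  exact mem_Kj.2 ⟨h1, (N ^ r) u, by rw [pow_add, Module.End.mul_apply]⟩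

theorem finrank_ker_pow (N : End K T) (h1 : finrank K (LinearMap.ker N) = 1) (j : ℕ) :
    finrank K (LinearMap.ker (N ^ j)) ≤ j := by
  induction j with
  | zero =>
    rw [pow_zero]
    have : LinearMap.ker (1 : End K T) = ⊥ := by
      ext x
      rw [LinearMap.mem_ker, Module.End.one_apply, Submodule.mem_bot]
    rw [this, finrank_bot]
  | succ j ih =>
    -- the map `N ^ j` from the kernel of `N ^ (j + 1)` to the kernel of `N`
    let P := LinearMap.ker (N ^ (j + 1))
    have hmap : ∀ x ∈ P, (N ^ j) x ∈ LinearMap.ker N := by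
      intro x hx
      rw [LinearMap.mem_ker, ← Module.End.mul_apply, ← pow_succ']
      exact hx
    let φ : P →ₗ[K] LinearMap.ker N := (N ^ j).restrict hmap
    have h2 := LinearMap.finrank_range_add_finrank_ker φ
    have h3 : finrank K (LinearMap.range φ) ≤ 1 := by
      rw [← h1]
      exact Submodule.finrank_le _
    have h4 : finrank K (LinearMap.ker φ) ≤ finrank K (LinearMap.ker (N ^ j)) := by
      have h5 : (LinearMap.ker φ).map P.subtype ≤ LinearMap.ker (N ^ j) := by
        rintro _ ⟨x, hx, rfl⟩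
        have h6 := congrArg (fun y : LinearMap.ker N => (y : T)) (LinearMap.mem_ker.1 hx)
        exact h6
      rw [← Submodule.finrank_map_subtype_eq P (LinearMap.ker φ)]
      exact Submodule.finrank_mono h5
    have h7 : finrank K P = finrank K (LinearMap.ker (N ^ (j + 1))) := rfl
    omega

theorem pow_ne_zero_of_ker (N : End K T) (h1 : finrank K (LinearMap.ker N) = 1) {D : ℕ}
    (hdim : finrank K T = D + 1) : N ^ D ≠ 0 := by
  intro h2
  have h3 := finrank_ker_pow N h1 D
  rw [h2, LinearMap.ker_zero, finrank_top, hdim] at h3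
  omega

end lin

section full

variable {K : Type} [Field K] [CharZero K] [IsAlgClosed K] {T : Type} [AddCommGroup T]
  [Module K T] [FiniteDimensional K T] {E : Type} [AddCommGroup E] [Module K E]
  [FiniteDimensional K E] {S : Type} [Fintype S] [DecidableEq S] {G : Type} [Group G]
  {B : T →ₗ[K] T →ₗ[K] K} {ρ : G →* (T →ₗ[K] T)} {σ : G →* (E →ₗ[K] E)} {χ : G →* K}

/-- The types of the unipotent element: mixed blocks; one block; or nontrivial, with an element with
few quotients of eigenvalues. -/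
def Good (ρ : G →* (T →ₗ[K] T)) (γ : G) : Prop :=
  IsNilpotent (ρ γ - 1) ∧ ((∃ D, Typ2 (ρ γ - 1) D) ∨ (∃ D, 0 < D ∧ finrank K T = D + 1 ∧
    finrank K (LinearMap.ker (ρ γ - 1)) = 1 ∧
    (D = 1 ∨ ∃ g : G, ∀ a c : K, LinearMap.charpoly (ρ g) ≠
      ∏ i ∈ range (D + 1), (Polynomial.X - Polynomial.C (a * c ^ i)))) ∨
    (ρ γ - 1 ≠ 0 ∧ ∃ g : G, Few (ρ g)))

/-- **The whole Lie algebra.** -/
theorem jordan_full (halt : ∀ v, B v v = 0) (hnd : ∀ u, (∀ v, B u v = 0) → u = 0)
    (hB : ∀ g x y, B (ρ g x) (ρ g y) = χ g * B x y) (hSI : Pool.Agent.TH125.Gal.SI ρ)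
    {γ : G} (hχ : χ γ = 1) (hσ : σ γ = 1) (hγ : Good ρ γ) (x y : T) :
    Pool.Agent.H204R3.SP.SS B x y ∈ LL S B ρ σ := by
  have hconj : ∀ g : G, ∀ Y ∈ LL S B ρ σ, ρ g * Y * ρ g⁻¹ ∈ LL S B ρ σ := by
    intro g Y hY
    have h1 := LL_conj (μ := χ) hB hY g
    exact h1
  have hbr : ∀ Y ∈ LL S B ρ σ, ∀ Z ∈ LL S B ρ σ, Y * Z - Z * Y ∈ LL S B ρ σ :=
    fun Y hY Z hZ => LL_bracket hY hZ
  have hsp : ∀ Y ∈ LL S B ρ σ, ∀ u w, B (Y u) w + B u (Y w) = 0 := fun Y hY u w => hY.1 u w
  obtain ⟨⟨k, hk⟩, hγ⟩ := hγ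
  have hne : ∃ v : T, v ≠ 0 := by
    rcases hγ with ⟨D, h⟩ | ⟨D, -, h, -⟩ | ⟨h, -⟩
    · by_contra hcon
      push Not at hcon
      have h1 := h.one
      have h2 : ∀ P : Submodule K T, finrank K P = 0 := by
        intro P
        rw [Submodule.finrank_eq_zero, eq_bot_iff]
        intro z _
        rw [hcon z]
        exact Submodule.zero_mem _
      rw [h2, h2] at h1
      omega
    · have h1 : 0 < finrank K T := by omega
      have := Module.nontrivial_of_finrank_pos h1
      exact exists_ne 0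
    · by_contra hcon
      push Not at hcon
      exact h (LinearMap.ext fun v => by rw [hcon v, map_zero, map_zero])
  have hX := SI_conv hne hSI
  have hmem : lg K (ρ γ - 1) k ∈ LL S B ρ σ :=
    lg_mem hk (fun x y => by rw [hB, hχ, one_mul]) hσ
  obtain ⟨V, hV, hc, hlg⟩ := lg_eq (K := K) (ρ γ - 1) hk
  have hnil' : IsNilpotent (lg K (ρ γ - 1) k) := by
    rw [hlg]
    exact hc.isNilpotent_mul_right ⟨k, hk⟩
  have hKj : ∀ j, Kj (lg K (ρ γ - 1) k) j = Kj (ρ γ - 1) j := fun j => by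
    rw [hlg, Kj_mul hV hc]
  rcases hγ with ⟨D, h⟩ | ⟨D, hD, hdim, hker, hF⟩ | ⟨h0, g, hg⟩
  · exact full_of_typ2 (R := ρ) (χ := χ) halt hnd hB hconj hbr hsp hX hmem (D := D)
      ⟨h.odd, hnil', by rw [hKj, hKj]; exact h.one, fun j h1 h2 => by
        rw [hKj, hKj]; exact h.even j h1 h2, by rw [hKj, hKj]; exact h.triv⟩ x y
  · have hker' : finrank K (LinearMap.ker (lg K (ρ γ - 1) k)) = 1 := by
      have h1 : Kj (lg K (ρ γ - 1) k) 0 = LinearMap.ker (lg K (ρ γ - 1) k) := by
        ext z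
        rw [mem_Kj, LinearMap.mem_ker]
        exact ⟨fun h => h.1, fun h => ⟨h, z, by rw [pow_zero, Module.End.one_apply]⟩⟩
      have h2 : Kj (ρ γ - 1) 0 = LinearMap.ker (ρ γ - 1) := by
        ext z
        rw [mem_Kj, LinearMap.mem_ker]
        exact ⟨fun h => h.1, fun h => ⟨h, z, by rw [pow_zero, Module.End.one_apply]⟩⟩
      rw [← h1, hKj, h2]
      exact hker
    exact full_of_single (R := ρ) halt hnd hconj hbr hsp hX hmem hnil' hD hdim
      (pow_ne_zero_of_ker _ hker' hdim) hF x y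
  · have hlg0 : lg K (ρ γ - 1) k ≠ 0 := by
      intro h1
      apply h0
      rw [hlg] at h1
      obtain ⟨U, hU⟩ := hV
      rw [← hU] at h1
      have h2 := congrArg (fun z => z * ((U⁻¹ : (End K T)ˣ) : End K T)) h1
      simpa [mul_assoc] using h2
    obtain ⟨z, hz, hz2, hz0, hrk⟩ := exists_rank_two (F := ρ g) (F' := ρ g⁻¹) (by
      rw [← map_mul, inv_mul_cancel, map_one]) hg (fun X hX' => hconj g X hX') hmem hlg0 hnil'
    exact full_of_N (R := ρ) (χ := χ) halt hnd hB hconj hbr hsp hX hz hz2 hz0 hrk x y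

end full

open Pool.Agent.H914 Pool.Agent.H914.VarClass Pool.Agent.H914.VarClass.Obj
  Pool.Agent.H914.WeilCohomology Pool.Agent.H281R3.HT Pool.Agent.W552
open Pool.Agent.V11219.IsoF
open Pool.Agent.V11219.Quad (dif_rhoT)

variable {k : Type u} [Field k] {𝒱 : VarClass k} {ops : CycleOps 𝒱}
  {W : WeilCohomology.{u, 0} ops} {Γ : Type} [Group Γ] {χ : Γ →* W.Kˣ}
  {P : Polarized 𝒱} {ρ : Γ →* (W.H P.X ≃ₐ[W.K] W.H P.X)} {Z : 𝒱.Obj}
  {τ : Γ →* (W.H Z ≃ₐ[W.K] W.H Z)}

theorem pow_rhoT (hG : IsGalois W χ P.X ρ) (g : Γ) (n : ℕ) (x : transcendental W P.X) :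
    ((((rhoT hG g - 1) ^ n) x : transcendental W P.X) : W.H P.X) = (dif ρ g ^ n) (x : W.H P.X) := by
  induction n generalizing x with
  | zero => rfl
  | succ n ih =>
    rw [pow_succ, Module.End.mul_apply, ih, pow_succ, Module.End.mul_apply]
    rfl

theorem finrank_Kj (hG : IsGalois W χ P.X ρ) (g : Γ) (j : ℕ) :
    finrank W.K (Kj (rhoT hG g - 1) j) = blocksAbove (transcendental W P.X) ρ g j := by
  rw [blocksAbove]
  have e1 : (LinearMap.ker (dif ρ g) ⊓ (transcendental W P.X).map (dif ρ g ^ j) :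
      Submodule W.K (W.H P.X)) = (Kj (rhoT hG g - 1) j).map (transcendental W P.X).subtype := by
    ext z
    constructor
    · rintro ⟨hz, u, hu, rfl⟩
      refine ⟨((rhoT hG g - 1) ^ j) ⟨u, hu⟩, ?_, ?_⟩
      · refine mem_Kj.2 ⟨Subtype.ext ?_, _, rfl⟩
        have h1 : (((rhoT hG g - 1) (((rhoT hG g - 1) ^ j) ⟨u, hu⟩) : transcendental W P.X) :
            W.H P.X) = dif ρ g ((dif ρ g ^ j) u) := by
          have h2 := dif_rhoT hG g (((rhoT hG g - 1) ^ j) ⟨u, hu⟩)
          rw [pow_rhoT] at h2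
          exact h2
        rw [h1]
        exact hz
      · exact pow_rhoT hG g j ⟨u, hu⟩
    · rintro ⟨x, hx, rfl⟩
      obtain ⟨h1, u, hu⟩ := mem_Kj.1 hx
      refine ⟨?_, u, u.2, ?_⟩
      · have h2 := congrArg (fun y : transcendental W P.X => (y : W.H P.X)) h1
        exact h2
      · have h2 := congrArg (fun y : transcendental W P.X => (y : W.H P.X)) hu
        exact (pow_rhoT hG g j u).symm.trans h2
  rw [e1]
  exact (Submodule.finrank_map_subtype_eq _ _).symm

theorem nilpotent_of (hG : IsGalois W χ P.X ρ) {g : Γ}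
    (h : UnipotentOn (transcendental W P.X) ρ g) : IsNilpotent (rhoT hG g - 1) := by
  obtain ⟨m, hm⟩ := h
  refine ⟨m, LinearMap.ext fun x => Subtype.ext ?_⟩
  rw [pow_rhoT, hm x x.2]
  rfl

theorem Kj_eq_of {K : Type*} [Field K] [CharZero K] {T : Type*} [AddCommGroup T] [Module K T]
    [FiniteDimensional K T] {N : End K T} {i j : ℕ} (hij : i ≤ j)
    (h : finrank K (Kj N i) ≤ finrank K (Kj N j)) : Kj N i = Kj N j :=
  (Submodule.eq_of_le_of_finrank_le (Kj_antitone hij) h).symm

theorem gen_map (hG : IsGalois W χ P.X ρ) (F : Γ) (b : W.K) :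
    (transcendental W P.X ⊓ Module.End.maxGenEigenspace (ρ F).toLinearMap b :
      Submodule W.K (W.H P.X)) = (Module.End.maxGenEigenspace (rhoT hG F) b).map
        (transcendental W P.X).subtype := by
  have key : ∀ (n : ℕ) (x : transcendental W P.X),
      ((((rhoT hG F - b • 1) ^ n : Module.End W.K (transcendental W P.X)) x :
        transcendental W P.X) : W.H P.X) =
      (((ρ F).toLinearMap - b • 1) ^ n : Module.End W.K (W.H P.X)) (x : W.H P.X) := by
    intro n
    induction n with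
    | zero => intro x; rfl
    | succ n ih =>
      intro x
      rw [pow_succ, Module.End.mul_apply, ih, pow_succ, Module.End.mul_apply]
      rfl
  ext z
  constructor
  · rintro ⟨hz, hz'⟩
    refine ⟨⟨z, hz⟩, ?_, rfl⟩
    obtain ⟨n, hn⟩ := (Module.End.mem_maxGenEigenspace _ _ _).1 hz'
    refine (Module.End.mem_maxGenEigenspace _ _ _).2 ⟨n, Subtype.ext ?_⟩
    exact (key n ⟨z, hz⟩).trans hn
  · rintro ⟨x, hx, rfl⟩
    refine ⟨x.2, ?_⟩
    obtain ⟨n, hn⟩ := (Module.End.mem_maxGenEigenspace _ _ _).1 hx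
    refine (Module.End.mem_maxGenEigenspace _ _ _).2 ⟨n, ?_⟩
    have h3 := key n x
    rw [hn] at h3
    exact h3.symm

theorem ev_iff (hG : IsGalois W χ P.X ρ) (F : Γ) (a : W.K) :
    Ev (rhoT hG F) a ↔ EigenvalueOn (transcendental W P.X) ρ F a := by
  constructor
  · rintro ⟨v, hv, h⟩
    exact ⟨v, v.2, fun h0 => hv (Subtype.ext h0), congrArg Subtype.val h⟩
  · rintro ⟨t, ht, ht0, h⟩
    exact ⟨⟨t, ht⟩, fun h0 => ht0 (congrArg Subtype.val h0), Subtype.ext h⟩

theorem few_of (hG : IsGalois W χ P.X ρ) {F : Γ}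
    (h : FewQuotients (transcendental W P.X) ρ F) : Few (rhoT hG F) := by
  obtain ⟨h1, h2, h3⟩ := h
  refine ⟨fun a => ?_, fun q hq => ?_, fun q hq a => ?_⟩
  · have h4 := h1 a
    rwa [gen_map hG, Submodule.finrank_map_subtype_eq] at h4
  · have h4 := h2 q hq
    have e : {a : W.K | Ev (rhoT hG F) a ∧ Ev (rhoT hG F) (q * a)} =
        {a : W.K | EigenvalueOn (transcendental W P.X) ρ F a ∧
          EigenvalueOn (transcendental W P.X) ρ F (q * a)} := by
      ext a
      exact and_congr (ev_iff hG F a) (ev_iff hG F (q * a))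
    rwa [e]
  · rw [ev_iff, ev_iff, ev_iff]
    exact h3 q hq a

theorem good_of (hG : IsGalois W χ P.X ρ) (hmid : transcendental W P.X ≤ W.gr P.X P.X.dim)
    (hodd : Odd P.X.dim) (hDX : HomEqNum W P.X) {g : Γ}
    (hu : UnipotentOn (transcendental W P.X) ρ g)
    (h : MixedBlocks (transcendental W P.X) ρ g ∨ OneBlock (transcendental W P.X) ρ g ∨
      ((∃ t ∈ transcendental W P.X, ρ g t ≠ t) ∧
        ∃ F : Γ, FewQuotients (transcendental W P.X) ρ F)) : Good (rhoT hG) g := by
  refine ⟨nilpotent_of hG hu, ?_⟩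
  rcases h with ⟨h1, h3, j, hj, hj1⟩ | ⟨h1, hF⟩ | ⟨⟨t, ht, hgt⟩, F, hF⟩
  · left
    have hb : ∀ j, blocks (transcendental W P.X) ρ g j =
        finrank W.K (Kj (rhoT hG g - 1) (j - 1)) - finrank W.K (Kj (rhoT hG g - 1) j) := by
      intro j
      rw [finrank_Kj, finrank_Kj]
      rfl
    have hj0 : 0 < j := by
      rcases Nat.eq_zero_or_pos j with h | h
      · rw [h, hb] at hj1
        simp at hj1
      · exact h
    refine ⟨j - 1, ?_, nilpotent_of hG hu, ?_, ?_, ?_⟩
    · obtain ⟨r, hr⟩ := hj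
      exact ⟨r - 1, by omega⟩
    · rw [hb] at hj1
      rw [Nat.sub_add_cancel hj0]
      omega
    · intro i hi hie
      refine Kj_eq_of (Nat.le_succ i) ?_
      have h4 := h3 (i + 1) hie.add_one (by omega)
      rw [hb, Nat.add_sub_cancel] at h4
      omega
    · intro h4
      apply h1
      rw [hb, Nat.sub_self, h4, Nat.sub_self]
  · right
    left
    have hker : finrank W.K (LinearMap.ker (rhoT hG g - 1)) = 1 := by
      have h2 : Kj (rhoT hG g - 1) 0 = LinearMap.ker (rhoT hG g - 1) := by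
        ext z
        rw [mem_Kj, LinearMap.mem_ker]
        exact ⟨fun h => h.1, fun h => ⟨h, z, by rw [pow_zero, Module.End.one_apply]⟩⟩
      rw [← h1, ← finrank_Kj hG, h2]
    have hT1 : finrank W.K (transcendental W P.X) ≠ 1 := by
      intro hT
      obtain ⟨v, hv, hspan⟩ := finrank_eq_one_iff'.1 hT
      apply hv
      refine trans_nondeg hDX v fun b => ?_
      obtain ⟨c, rfl⟩ := hspan b
      rw [map_smul, form_alt hmid hodd, smul_zero]
    have hT0 : finrank W.K (transcendental W P.X) ≠ 0 := by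
      intro hT
      have h2 := Submodule.finrank_le (LinearMap.ker (rhoT hG g - 1))
      omega
    refine ⟨finrank W.K (transcendental W P.X) - 1, by omega, by omega, hker, ?_⟩
    rcases hF with hF | ⟨F, hF⟩
    · left
      omega
    · right
      refine ⟨F, fun a c hac => hF ⟨a, c, fun b => ?_⟩⟩
      rw [gen_map hG, Submodule.finrank_map_subtype_eq, LinearMap.finrank_maxGenEigenspace_eq, hac,
        mult_geom, Nat.sub_add_cancel (by omega)]
  · right
    right
    refine ⟨fun h0 => hgt ?_, F, few_of hG hF⟩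
    have h1 := congrArg Subtype.val (LinearMap.congr_fun h0 ⟨t, ht⟩)
    have h2 : ρ g t - t = 0 := h1
    exact sub_eq_zero.1 h2

/-- Unipotent elements. -/
theorem fullT_jordan [IsAlgClosed W.K] (hDX : HomEqNum W P.X)
    (hmid : transcendental W P.X ≤ W.gr P.X P.X.dim)
    (hG : IsGalois W χ P.X ρ) (hodd : Odd P.X.dim)
    (hirr : StronglyIrreducible ρ (transcendental W P.X)) {M : Set Γ} (hχ : ∀ g ∈ M, χ g = 1)
    (hτ : ∀ g ∈ M, τ g = 1) (hg : JordanCondition (transcendental W P.X) ρ M) :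
    FullT χ hG τ := by
  intro S _ _ σ hσ x y
  obtain ⟨g, hgM, hu, hg⟩ := hg
  rw [rk_eq_SS]
  refine jordan_full (χ := mult χ P.X.dim) (γ := g) (form_alt hmid hodd)
    (trans_nondeg hDX) (fun g a b => ?_) (SI_rhoT hG hirr) ?_ ?_ (good_of hG hmid hodd hDX hu hg) x y
  · rw [mult_apply]
    exact bil_act hG g a b
  · rw [mult_apply, hχ g hgM, Units.val_one, one_pow]
  · apply LinearMap.ext
    intro z
    rw [hσ g (hχ g hgM), hτ g hgM]
    rfl

/-- The transcendental cohomology is not zero. -/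
theorem exists_ne_of_jordan {M : Set Γ} (hg : JordanCondition (transcendental W P.X) ρ M) :
    ∃ t : W.H P.X, t ≠ 0 := by
  by_contra hcon
  push Not at hcon
  have hbot : ∀ U : Submodule W.K (W.H P.X), Module.finrank W.K U = 0 := by
    intro U
    rw [Submodule.finrank_eq_zero, eq_bot_iff]
    intro x _
    rw [hcon x]
    exact Submodule.zero_mem _
  obtain ⟨g, -, -, ⟨h1, -⟩ | ⟨h1, -⟩ | ⟨⟨t, -, h1⟩, -⟩⟩ := hg
  · apply h1
    rw [blocks, blocksAbove, blocksAbove, hbot, hbot]
  · rw [blocksAbove, hbot] at h1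
    omega
  · apply h1
    rw [hcon t, map_zero]

end Pool.Agent.U172.JT
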