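import Mathlib
import Pool.Agent.U172.JT.Full
import Pool.Agent.V11219.LocStd
import Pool.Agent.V11219.BstMain

/-!
# The standard conjectures for products with powers: local monodromy with Jordan blocks of several sizes
-/

open CategoryTheory AlgebraicGeometry Finset

set_option linter.unusedSectionVars false

universe u

namespace Pool.Agent.U172.JT

open Pool.Agent.TH125.Gal Pool.Agent.TH118.SG Pool.Agent.V11219.IsoF Pool.Agent.V11219.Quad
open Pool.Agent.V11219.Loc Pool.Agent.V11219.Bst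
open Pool.Agent.H914 Pool.Agent.H914.VarClass Pool.Agent.H914.VarClass.Obj
  Pool.Agent.H914.WeilCohomology Pool.Agent.H281R3.HT Pool.Agent.W552 Pool.Agent.H447

variable {k : Type u} [Field k] {𝒱 : VarClass k} {ops : CycleOps 𝒱}
  {W : WeilCohomology.{u, 0} ops} {Γ : Type} [Group Γ] {χ : Γ →* W.Kˣ} {G : Set (GVar W Γ)}

variable {ι : Type} {X : ι → GVar W Γ} {D : ∀ i, (X i).X.Cycles} {Z : GVar W Γ}

theorem JordanSystem.galoisClass (h : JordanSystem χ G X D Z) : GaloisClass χ G where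
  galois := h.galois
  prod := fun A hA B hB => by
    obtain ⟨υ, hυ, hG⟩ := h.prod A hA B hB
    exact ⟨_, hG, IsProdVar.mk υ hυ.1 hυ.2⟩

/-- the conditions for one step -/
theorem JordanSystem.split [IsAlgClosed W.K] (h : JordanSystem χ G X D Z) {a : ι × ℕ} {Y : 𝒱.Obj}
    {υ : Γ →* (W.H Y ≃ₐ[W.K] W.H Y)} (hY : (⟨Y, υ⟩ : GVar W Γ) ∈ G)
    {L : List (ι × ℕ)} (hL : a.1 ∉ L.map Prod.fst)
    (hυ : ∀ g, (∀ a ∈ L, TrivAct (X a.1).act g) → TrivAct Z.act g → υ g = 1)
    (hυe : ∀ (Λ : Subgroup W.Kˣ) g, (∀ a ∈ L, EigenvaluesIn Λ (X a.1).act g) →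
        EigenvaluesIn Λ Z.act g → EigA Λ (υ g)) :
    SplitData (X a.1) (D a.1) ⟨Y, υ⟩ := by
  have hne : ∀ b ∈ L, b.1 ≠ a.1 := fun b hb h0 => hL (List.mem_map.2 ⟨b, hb, h0⟩)
  have hpol := (h.transIrred a.1).polarization
  have hmid := (h.transIrred a.1).middle
  have hirr := (h.transIrred a.1).irreducible
  have hDX := homEqNum_of_pol hpol
  have hone : ∀ t : W.H (X a.1).X, t ≠ 0 → (1 : W.H (X a.1).X) ≠ 0 := by
    intro t ht h3
    apply ht
    rw [← one_mul t, h3, zero_mul]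
  have hGal := isGalois (h.galoisClass.galois _ (h.mem a.1))
  have hfull : FullT (P := ⟨(X a.1).X, D a.1⟩) χ hGal υ ∧ ∃ t : W.H (X a.1).X, t ≠ 0 := by
    rcases h.cond a.1 with hJ | ⟨g, hgM, hg⟩ | ⟨hF, Λ, g, hgP, hχ, hg⟩
    · exact ⟨fullT_jordan (P := ⟨(X a.1).X, D a.1⟩) hDX hmid hGal (h.odd a.1) hirr
        (M := {g | χ g = 1 ∧ g ∈ trivialOn X Z a.1}) (fun g hg => hg.1)
        (fun g hg => hυ g (fun b hb => hg.2.2 b.1 (hne b hb)) hg.2.1) hJ,
        exists_ne_of_jordan (P := ⟨(X a.1).X, D a.1⟩) hJ⟩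
    · have hg' : CoprimeDefects (transcendental W (X a.1).X) (X a.1).act
          {g | χ g = 1 ∧ g ∈ trivialOn X Z a.1} g := hg
      exact ⟨fullT_quad (P := ⟨(X a.1).X, D a.1⟩) hDX hmid hGal (h.odd a.1) hirr
        (M := {g | χ g = 1 ∧ g ∈ trivialOn X Z a.1}) (fun g hg => hg.1)
        (fun g hg => hυ g (fun b hb => hg.2.2 b.1 (hne b hb)) hg.2.1) hgM hg',
        exists_ne_of_coprime (P := ⟨(X a.1).X, D a.1⟩) hg'⟩
    · have hg' : IsolatedAct Λ (transcendental W (X a.1).X) (X a.1).act g := isolatedAct_of hg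
      refine ⟨fullT_iso (P := ⟨(X a.1).X, D a.1⟩) hDX hmid hGal (h.odd a.1) hirr hχ hg' hF
        (hυe Λ g (fun b hb => hgP.2 b.1 (hne b hb)) hgP.1), ?_⟩
      obtain ⟨F, x, hx, y, hy, hx0, -⟩ := hF
      exact ⟨x, hx0⟩
  obtain ⟨hfull, t, ht⟩ := hfull
  exact ⟨hpol, hmid, hone t ht, fun s m c hc =>
    tgt_of_full h.galoisClass (h.mem a.1) hY hmid hDX (h.odd a.1) hfull s m c hc⟩

/-- **The conjecture D.** -/
theorem homEqNum_jordan [IsAlgClosed W.K] (h : JordanSystem χ G X D Z) (E : Z.X.Cycles)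
    (L : List (ι × ℕ)) (hL : (L.map Prod.fst).Nodup) :
    HomEqNum W (nodalTower X D Z E L).X ↔ HomEqNum W Z.X := by
  rw [nodalTower, tower_eq]
  induction L with
  | nil => exact Iff.rfl
  | cons a L ih =>
    rw [List.map_cons, List.nodup_cons] at hL
    obtain ⟨υ, hυ, hυ', hυe⟩ := exists_tower_act' (D := D) h.galoisClass h.mem h.mem_base E L
    have hN := h.split (a := a) hυ hL.1 hυ' hυe
    rw [← ih hL.2]
    constructor
    · intro h1
      obtain ⟨x, hx⟩ := exists_tr hN.one_ne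
      have h2 : W.tr (nest ops a.2 fun _ => (⟨(X a.1).X, D a.1⟩ : Polarized 𝒱)).X
          (mono (prj ops a.2 fun _ => (⟨(X a.1).X, D a.1⟩ : Polarized 𝒱)) fun _ => x) ≠ 0 := by
        rw [tr_mono]
        exact pow_ne_zero _ hx
      exact homEqNum_factor h2 h1
    · intro h1
      exact hN.homEqNum_prod a.2 h1

/-- **The conjecture of Hodge type.** -/
theorem hodge_jordan [IsAlgClosed W.K] (h : JordanSystem χ G X D Z) {E : Z.X.Cycles}
    (hE : IsPolarization W Z.X E) (L : List (ι × ℕ)) (hL : (L.map Prod.fst).Nodup) :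
    HodgeType W (nodalTower X D Z E L).X (nodalTower X D Z E L).D ∧
      HomEqNum W (nodalTower X D Z E L).X := by
  rw [nodalTower, tower_eq]
  have key : ∃ g, Fp W (tower' ops (fun i => ⟨(X i).X, D i⟩) ⟨Z.X, E⟩ L).X
      (tower' ops (fun i => ⟨(X i).X, D i⟩) ⟨Z.X, E⟩ L).D g := by
    induction L with
    | nil =>
      obtain ⟨g, hg, _⟩ := exists_Fp hE.div hE.hard hE.lefschetz hE.hodge
      exact ⟨g, hg⟩
    | cons a L ih =>
      rw [List.map_cons, List.nodup_cons] at hL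
      obtain ⟨υ, hυ, hυ', hυe⟩ := exists_tower_act' (D := D) h.galoisClass h.mem h.mem_base E L
      exact (h.split (a := a) hυ hL.1 hυ' hυe).fp_prod a.2 (ih hL.2)
  obtain ⟨g, F⟩ := key
  exact F.hodge

theorem jordan_hard [IsAlgClosed W.K] (h : JordanSystem χ G X D Z) {E : Z.X.Cycles}
    (hE : Z.X.IsCyc 1 E) (hHL : HardLefschetz W Z.X E) (L : List (ι × ℕ))
    (hL : (L.map Prod.fst).Nodup) :
    (tower' ops (fun i => ⟨(X i).X, D i⟩) ⟨Z.X, E⟩ L).X.IsCyc 1
      (tower' ops (fun i => ⟨(X i).X, D i⟩) ⟨Z.X, E⟩ L).D ∧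
    HardLefschetz W (tower' ops (fun i => ⟨(X i).X, D i⟩) ⟨Z.X, E⟩ L).X
      (tower' ops (fun i => ⟨(X i).X, D i⟩) ⟨Z.X, E⟩ L).D := by
  induction L with
  | nil => exact ⟨hE, hHL⟩
  | cons a L ih =>
    rw [List.map_cons, List.nodup_cons] at hL
    obtain ⟨υ, hυ, hυ', hυe⟩ := exists_tower_act' (D := D) h.galoisClass h.mem h.mem_base E L
    have hN := h.split (a := a) hυ hL.1 hυ' hυe
    have h1 := ih hL.2
    obtain ⟨hP, hPL⟩ := hN.nest_hard a.2
    exact ⟨SmVar.IsCyc.add (ops.pull_mem _ hP) (ops.pull_mem _ h1.1),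
      hardLefschetz_prod hP h1.1 hPL h1.2⟩

/-- **The conjecture A for towers.** -/
theorem lefschetzA_jordan [IsAlgClosed W.K] (h : JordanSystem χ G X D Z) {E : Z.X.Cycles}
    (hE : Z.X.IsCyc 1 E) (hHL : HardLefschetz W Z.X E) (L : List (ι × ℕ))
    (hL : (L.map Prod.fst).Nodup) :
    LefschetzA W (nodalTower X D Z E L).X (nodalTower X D Z E L).D ↔ LefschetzA W Z.X E := by
  rw [nodalTower, tower_eq]
  induction L with
  | nil => exact Iff.rfl
  | cons a L ih =>
    rw [List.map_cons, List.nodup_cons] at hL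
    obtain ⟨υ, hυ, hυ', hυe⟩ := exists_tower_act' (D := D) h.galoisClass h.mem h.mem_base E L
    have hN := h.split (a := a) hυ hL.1 hυ' hυe
    have h1 := jordan_hard h hE hHL L hL.2
    rw [← ih hL.2]
    exact hN.lefschetzA_iff a.2 h1.1 h1.2

/-- **The conjecture A for towers and all divisors.** -/
theorem lefAll_jordan [IsAlgClosed W.K] (h : JordanSystem χ G X D Z) (E : Z.X.Cycles)
    (L : List (ι × ℕ)) (hL : (L.map Prod.fst).Nodup) :
    LefAll W (nodalTower X D Z E L).X ↔ LefAll W Z.X := by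
  rw [nodalTower, tower_eq]
  induction L with
  | nil => exact Iff.rfl
  | cons a L ih =>
    rw [List.map_cons, List.nodup_cons] at hL
    obtain ⟨υ, hυ, hυ', hυe⟩ := exists_tower_act' (D := D) h.galoisClass h.mem h.mem_base E L
    have hN := h.split (a := a) hυ hL.1 hυ' hυe
    rw [← ih hL.2]
    exact hN.lefAll_iff a.2


/-- **The standard conjectures B and A.** -/
theorem jordanBA [IsAlgClosed W.K] (h : JordanSystem χ G X D Z) (E : Z.X.Cycles)
    (L : List (ι × ℕ)) (hL : (L.map Prod.fst).Nodup) :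
    (HomEqNum W Z.X → ∀ (V : 𝒱.Obj) (g : (nodalTower X D Z E L).X ⟶ V.prod V), Dominant W g →
        ∀ A : V.Cycles, V.IsCyc 1 A → HardLefschetz W V A → LefschetzB W V A) ∧
    ((∀ C, (nodalTower X D Z E L).X.IsCyc 1 C → HardLefschetz W (nodalTower X D Z E L).X C →
        LefschetzA W (nodalTower X D Z E L).X C) ↔
      ∀ B, Z.X.IsCyc 1 B → HardLefschetz W Z.X B → LefschetzA W Z.X B) :=
  ⟨fun hZ _ _ hg _ hA hHL => lefschetzB_of_homEqNum hA hHL
      (homEqNum_of_dominant hg ((homEqNum_jordan h E L hL).2 hZ)), lefAll_jordan h E L hL⟩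

end Pool.Agent.U172.JT
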