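import Mathlib
import Pool.Agent.U172.JT.Full
import Pool.Agent.V11219.ClsMain

/-!
# Tate classes and systems of classes: local monodromy with Jordan blocks of several sizes
-/

open CategoryTheory AlgebraicGeometry Finset Function

set_option linter.unusedSectionVars false
set_option linter.unusedVariables false

namespace Pool.Agent.U172.JT

universe u

open Pool.Agent.TH125.Gal Pool.Agent.TH118.SG Pool.Agent.V11219.IsoF Pool.Agent.V11219.Loc
  Pool.Agent.V11219.Quad Pool.Agent.V11219.Sst Pool.Agent.V11219.Cls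

open Pool.Agent.H914 Pool.Agent.H914.VarClass Pool.Agent.H914.VarClass.Obj
  Pool.Agent.H914.WeilCohomology Pool.Agent.H281R3.HT Pool.Agent.W552 Pool.Agent.H447

variable {k : Type u} [Field k] {𝒱 : VarClass k} {ops : CycleOps 𝒱}
  {W : WeilCohomology.{u, 0} ops} {Γ : Type} [Group Γ] {χ : Γ →* W.Kˣ}
  {C : Classes W} {ι : Type} {X : ι → GVar W Γ} {Z : GVar W Γ}

/-- the Lie algebra at one step -/
theorem full_step [IsAlgClosed W.K] (h : JordanVars χ X Z) {S : Set ι} {A : GVar W Γ} {i : ι}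
    (hT : GTower X Z S A) (hi : i ∉ S) :
    FullT (P := ⟨(X i).X, 0⟩) χ (isGalois (h.galois i)) A.act ∧ ∃ t : W.H (X i).X, t ≠ 0 := by
  have hG := isGalois (h.galois i)
  rcases h.cond i with hJ | ⟨g, hgM, hg⟩ | ⟨hF, Λ, g, ⟨hZ, hj⟩, hχ, hg⟩
  · exact ⟨fullT_jordan (P := ⟨(X i).X, 0⟩) (h.homEqNum i) (h.middle i) hG (h.odd i)
      (h.irreducible i) (M := {g | χ g = 1 ∧ g ∈ trivialOn X Z i}) (fun g hg => hg.1)
      (fun g hg => trivAct.1
        (hT.trivAct (fun j hjS => hg.2.2 j fun h' => hi (h' ▸ hjS)) hg.2.1)) hJ,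
      exists_ne_of_jordan (P := ⟨(X i).X, 0⟩) hJ⟩
  · have hg' : CoprimeDefects (transcendental W (X i).X) (X i).act
        {g | χ g = 1 ∧ g ∈ trivialOn X Z i} g := hg
    refine ⟨?_, exists_ne_of_coprime (P := ⟨(X i).X, 0⟩) hg'⟩
    exact fullT_quad (P := ⟨(X i).X, 0⟩) (h.homEqNum i) (h.middle i) hG (h.odd i)
      (h.irreducible i) (M := {g | χ g = 1 ∧ g ∈ trivialOn X Z i}) (fun g hg => hg.1)
      (fun g hg => trivAct.1
        (hT.trivAct (fun j hjS => hg.2.2 j fun h' => hi (h' ▸ hjS)) hg.2.1)) hgM hg'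
  · refine ⟨?_, ?_⟩
    · exact fullT_iso (P := ⟨(X i).X, 0⟩) (h.homEqNum i) (h.middle i) hG (h.odd i)
          (h.irreducible i) hχ (isolatedAct_of hg) hF
          (GTower.eig hT (fun j hjS => hj j fun h' => hi (h' ▸ hjS)) hZ)
    · obtain ⟨F, x, hx, y, hy, hx0, -⟩ := hF
      exact ⟨x, hx0⟩

/-- **Systems of classes, local conditions.** -/
theorem cls_jordan [IsAlgClosed W.K] (hC : ClassSystem W C)
    (h : JordanVars χ X Z) {S : Set ι} {T : GVar W Γ} (hT : GTower X Z S T) :
    TateIn χ C T ↔ TateIn χ C Z := by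
  induction hT with
  | base => exact Iff.rfl
  | @step S A A' i n hT hi hn hP ih =>
    rw [← ih]
    obtain ⟨hfull, t, ht⟩ := full_step h hT hi
    obtain ⟨υ, h1, h2⟩ := hP
    have hG := isGalois (h.galois i)
    constructor
    · refine conv_cls (P := ⟨(X i).X, 0⟩) hC (h.homEqNum i) ?_ (isPowAct h1 h2)
      intro h3
      apply ht
      rw [← one_mul t, h3, zero_mul]
    · exact step_cls (P := ⟨(X i).X, 0⟩) hC (h.homEqNum i) (h.middle i) hG
        (isPowAct h1 h2) (h.odd i) (fullR_of_fullT hfull)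

/-- **The Tate conjecture, local conditions.** -/
theorem tate_jordan [IsAlgClosed W.K] (h : JordanVars χ X Z) {S : Set ι} {T : GVar W Γ}
    (hT : GTower X Z S T) : TateConjecture χ T ↔ TateConjecture χ Z := by
  induction hT with
  | base => exact Iff.rfl
  | @step S A A' i n hT hi hn hP ih =>
    rw [← ih]
    obtain ⟨hfull, t, ht⟩ := full_step h hT hi
    obtain ⟨υ, h1, h2⟩ := hP
    have hG := isGalois (h.galois i)
    constructor
    · refine tate_conv (P := ⟨(X i).X, 0⟩) (h.homEqNum i) ?_ (isPowAct h1 h2)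
      intro h3
      apply ht
      rw [← one_mul t, h3, zero_mul]
    · exact tate_step'' (P := ⟨(X i).X, 0⟩) (h.homEqNum i) (h.middle i) hG
        (isPowAct h1 h2) (h.odd i) hfull

/-- conversion of the towers -/
theorem gtower_of (hodd : ∀ i, Odd (X i).X.dim) {S : Set ι} {T : GVar W Γ}
    (hT : Pool.Agent.V11219.Cls.Tower X Z S T) : GTower X Z S T := by
  induction hT with
  | base => exact GTower.base
  | step i n _ hi hP ih =>
    exact GTower.step i n ih hi (fun he => absurd he (Nat.not_even_iff_odd.2 (hodd i))) hP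

end Pool.Agent.U172.JT
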